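import Pool.Agent.Helper62.DSH.StB

/-!
# FRD: the exterior derivative of the mollification
-/

set_option autoImplicit false

open Set Filter Topology MeasureTheory
open scoped ContDiff ENNReal

noncomputable section

namespace Pool.Agent.Helper15.DSH

open Helper62.LH Helper62.DSH

variable {n j : ℕ}

/-! ### algebra -/

/-- the index `J` without the entry `c` -/
private def dr (J : Fin (j + 1) → Fin n) (c : Fin (j + 1)) : Fin j → Fin n :=
  fun i => J (c.succAbove i)

/-- leading coefficients -/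
private def aJ (F : Fin n → E n → E n) (J : Fin (j + 1) → Fin n) (I : Fin j → Fin n) (k : Fin n)
    (x : E n) : ℝ :=
  -∑ c : Fin (j + 1), (-1) ^ (c : ℕ) * (if dr J c = I then (F (J c) x) k else 0)

/-- coefficients of order zero -/
private def zJ (G : E n → Fin n → Fin n → Fin n → ℝ) (J : Fin (j + 1) → Fin n)
    (I : Fin j → Fin n) (x : E n) : ℝ :=
  -∑ c : Fin (j + 1), (-1) ^ (c : ℕ) * ∑ k, ∑ l,
    (if Function.update (dr J c) k l = I then G x (J c) (dr J c k) l else 0)

private theorem alg1 {ι κ : Type*} [Fintype ι] [DecidableEq ι] [Fintype κ] (s : κ → ℝ)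
    (Ic : κ → ι) (A : κ → Fin n → ℝ) (D : ι → Fin n → ℝ) :
    ∑ I, ∑ k, (∑ c, s c * (if Ic c = I then A c k else 0)) * D I k =
      ∑ c, s c * ∑ k, A c k * D (Ic c) k := by
  have h1 : ∀ I, ∑ k, (∑ c, s c * (if Ic c = I then A c k else 0)) * D I k =
      ∑ c, (if Ic c = I then s c * ∑ k, A c k * D I k else 0) := by
    intro I
    simp only [Finset.sum_mul]
    rw [Finset.sum_comm]
    refine Finset.sum_congr rfl fun c _ => ?_
    by_cases h : Ic c = I
    · simp only [if_pos h]
      rw [Finset.mul_sum]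
      exact Finset.sum_congr rfl fun k _ => by ring
    · simp only [if_neg h, mul_zero, zero_mul, Finset.sum_const_zero]
  simp only [h1]
  rw [Finset.sum_comm]
  refine Finset.sum_congr rfl fun c _ => ?_
  rw [Finset.sum_eq_single (Ic c)]
  · rw [if_pos rfl]
  · intro I _ hI
    rw [if_neg (Ne.symm hI)]
  · intro h
    exact absurd (Finset.mem_univ _) h

private theorem alg2 {ι κ : Type*} [Fintype ι] [DecidableEq ι] [Fintype κ] (s : κ → ℝ)
    {μ : Type*} [Fintype μ]
    (up : κ → μ → ι) (B : κ → μ → ℝ) (t : ι → ℝ) :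
    ∑ I, (∑ c, s c * ∑ k, (if up c k = I then B c k else 0)) * t I =
      ∑ c, s c * ∑ k, B c k * t (up c k) := by
  have h1 : ∀ I, (∑ c, s c * ∑ k, (if up c k = I then B c k else 0)) * t I =
      ∑ c, s c * ∑ k, (if up c k = I then B c k * t I else 0) := by
    intro I
    rw [Finset.sum_mul]
    refine Finset.sum_congr rfl fun c _ => ?_
    rw [mul_assoc, Finset.sum_mul]
    congr 1
    refine Finset.sum_congr rfl fun k _ => ?_
    by_cases h : up c k = I
    · rw [if_pos h, if_pos h]
    · rw [if_neg h, if_neg h, zero_mul]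
  simp only [h1]
  rw [Finset.sum_comm]
  refine Finset.sum_congr rfl fun c _ => ?_
  rw [← Finset.mul_sum, Finset.sum_comm]
  congr 1
  refine Finset.sum_congr rfl fun k _ => ?_
  rw [Finset.sum_eq_single (up c k)]
  · rw [if_pos rfl]
  · intro I _ hI
    rw [if_neg (Ne.symm hI)]
  · intro h
    exact absurd (Finset.mem_univ _) h

private theorem vec (v : E n) : v = ∑ k, v k • ee k := by
  ext k
  simp [ee, Finset.sum_apply, Pi.single_apply]

private theorem fd_comp (u : E n → Tn n j) (hu : ContDiff ℝ ∞ u) (x v : E n)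
    (I : Fin j → Fin n) :
    fderiv ℝ u x v I = fderiv ℝ (fun y => u y I) x v := by
  have h1 : HasFDerivAt u (fderiv ℝ u x) x := (hu.differentiable (by simp) x).hasFDerivAt
  have h2 := (hasFDerivAt_pi'.1 h1) I
  rw [h2.fderiv]
  rfl

private theorem dF_comp (F : Fin n → E n → E n) (G : E n → Fin n → Fin n → Fin n → ℝ)
    (u : E n → Tn n j) (hu : ContDiff ℝ ∞ u) (x : E n) (J : Fin (j + 1) → Fin n) :
    dF F G u x J = ∑ I, (zJ G J I x * u x I -
      ∑ k, aJ F J I k x * fderiv ℝ (fun y => u y I) x (ee k)) := by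
  have hL : dF F G u x J = (∑ c : Fin (j + 1), (-1) ^ (c : ℕ) *
      ∑ k, (F (J c) x) k * fderiv ℝ (fun y => u y (dr J c)) x (ee k)) -
      ∑ c : Fin (j + 1), (-1) ^ (c : ℕ) * ∑ q : Fin j × Fin n,
        G x (J c) (dr J c q.1) q.2 * u x (Function.update (dr J c) q.1 q.2) := by
    unfold dF wd
    rw [← Finset.sum_sub_distrib]
    refine Finset.sum_congr rfl fun c _ => ?_
    rw [← mul_sub]
    congr 1
    have e1 : cv F G u x (J c) (fun i => J (c.succAbove i)) =
        fderiv ℝ u x (F (J c) x) (dr J c) - rho (G x (J c)) (u x) (dr J c) := rfl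
    rw [e1, fd_comp u hu]
    congr 1
    · conv_lhs => rw [vec (F (J c) x)]
      rw [map_sum]
      refine Finset.sum_congr rfl fun k _ => ?_
      rw [map_smul, smul_eq_mul]
    · unfold rho
      rw [Fintype.sum_prod_type]
  have hR1 : ∑ I, ∑ k, aJ F J I k x * fderiv ℝ (fun y => u y I) x (ee k) =
      -∑ c : Fin (j + 1), (-1) ^ (c : ℕ) *
        ∑ k, (F (J c) x) k * fderiv ℝ (fun y => u y (dr J c)) x (ee k) := by
    rw [← alg1 (fun c : Fin (j + 1) => (-1 : ℝ) ^ (c : ℕ)) (fun c => dr J c)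
      (fun c k => (F (J c) x) k) (fun I k => fderiv ℝ (fun y => u y I) x (ee k)),
      ← Finset.sum_neg_distrib]
    refine Finset.sum_congr rfl fun I _ => ?_
    rw [← Finset.sum_neg_distrib]
    refine Finset.sum_congr rfl fun k _ => ?_
    unfold aJ
    rw [neg_mul]
  have hR2 : ∑ I, zJ G J I x * u x I = -∑ c : Fin (j + 1), (-1) ^ (c : ℕ) *
      ∑ q : Fin j × Fin n,
        G x (J c) (dr J c q.1) q.2 * u x (Function.update (dr J c) q.1 q.2) := by
    rw [← alg2 (fun c : Fin (j + 1) => (-1 : ℝ) ^ (c : ℕ))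
      (fun c (q : Fin j × Fin n) => Function.update (dr J c) q.1 q.2)
      (fun c q => G x (J c) (dr J c q.1) q.2) (fun I => u x I), ← Finset.sum_neg_distrib]
    refine Finset.sum_congr rfl fun I _ => ?_
    unfold zJ
    rw [neg_mul]
    congr 2
    refine Finset.sum_congr rfl fun c _ => ?_
    rw [Fintype.sum_prod_type]
  rw [hL, Finset.sum_sub_distrib, hR1, hR2]
  ring

/-! ### smoothness of the coefficients -/

private theorem coord_smooth (f : E n → E n) (hf : ContDiff ℝ ∞ f) (k : Fin n) :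
    ContDiff ℝ ∞ (fun x => f x k) := by
  have h : (fun x => f x k) = fun x => (EuclideanSpace.proj k : E n →L[ℝ] ℝ) (f x) := rfl
  rw [h]
  exact (EuclideanSpace.proj k : E n →L[ℝ] ℝ).contDiff.comp hf

private theorem aJ_smooth (F : Fin n → E n → E n) (hF : ∀ a, ContDiff ℝ ∞ (F a))
    (J : Fin (j + 1) → Fin n) (I : Fin j → Fin n) (k : Fin n) :
    ContDiff ℝ ∞ (aJ F J I k) := by
  unfold aJ
  apply ContDiff.neg
  apply ContDiff.sum
  intro c _
  apply ContDiff.mul contDiff_const
  by_cases h : dr J c = I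
  · simp only [if_pos h]
    exact coord_smooth _ (hF _) k
  · simp only [if_neg h]
    exact contDiff_const

private theorem zJ_smooth (G : E n → Fin n → Fin n → Fin n → ℝ)
    (hG : ∀ a b c, ContDiff ℝ ∞ (fun x => G x a b c))
    (J : Fin (j + 1) → Fin n) (I : Fin j → Fin n) :
    ContDiff ℝ ∞ (zJ G J I) := by
  unfold zJ
  apply ContDiff.neg
  apply ContDiff.sum
  intro c _
  apply ContDiff.mul contDiff_const
  apply ContDiff.sum
  intro k _
  apply ContDiff.sum
  intro l _
  by_cases h : Function.update (dr J c) k l = I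
  · simp only [if_pos h]
    exact hG _ _ _
  · simp only [if_neg h]
    exact contDiff_const

private theorem fd_smooth (f : E n → ℝ) (hf : ContDiff ℝ ∞ f) (v : E n) :
    ContDiff ℝ ∞ (fun x => fderiv ℝ f x v) :=
  (hf.fderiv_right (m := ∞) (by simp)).clm_apply contDiff_const

/-- the coefficient of order zero of the weak equation -/
private def bJ (F : Fin n → E n → E n) (G : E n → Fin n → Fin n → Fin n → ℝ)
    (J : Fin (j + 1) → Fin n) (I : Fin j → Fin n) (x : E n) : ℝ :=
  zJ G J I x + ∑ k, fderiv ℝ (aJ F J I k) x (ee k)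

private theorem bJ_smooth (F : Fin n → E n → E n) (hF : ∀ a, ContDiff ℝ ∞ (F a))
    (G : E n → Fin n → Fin n → Fin n → ℝ)
    (hG : ∀ a b c, ContDiff ℝ ∞ (fun x => G x a b c))
    (J : Fin (j + 1) → Fin n) (I : Fin j → Fin n) :
    ContDiff ℝ ∞ (bJ F G J I) := by
  unfold bJ
  apply (zJ_smooth G hG J I).add
  apply ContDiff.sum
  intro k _
  exact fd_smooth _ (aJ_smooth F hF J I k) _

/-- product rule -/
private theorem fd_mul (a u : E n → ℝ) (ha : ContDiff ℝ ∞ a) (hu : ContDiff ℝ ∞ u) (x v : E n) :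
    fderiv ℝ (fun z => a z * u z) x v = a x * fderiv ℝ u x v + fderiv ℝ a x v * u x := by
  have h1 := (ha.differentiable (by simp) x).hasFDerivAt
  have h2 := (hu.differentiable (by simp) x).hasFDerivAt
  have h3 : HasFDerivAt (fun z => a z * u z) _ x := h1.mul h2
  rw [h3.fderiv]
  simp only [_root_.add_apply, _root_.smul_apply, smul_eq_mul]
  ring

/-- the divergence form -/
private theorem dF_div (F : Fin n → E n → E n) (G : E n → Fin n → Fin n → Fin n → ℝ)
    (hF : ∀ a, ContDiff ℝ ∞ (F a))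
    (u : E n → Tn n j) (hu : ContDiff ℝ ∞ u) (x : E n) (J : Fin (j + 1) → Fin n) :
    dF F G u x J = ∑ I, (bJ F G J I x * u x I -
      ∑ k, fderiv ℝ (fun z => aJ F J I k z * u z I) x (ee k)) := by
  rw [dF_comp F G u hu x J]
  refine Finset.sum_congr rfl fun I _ => ?_
  have hI : ContDiff ℝ ∞ (fun y => u y I) := (contDiff_pi.1 hu) I
  have h1 : ∀ k, fderiv ℝ (fun z => aJ F J I k z * u z I) x (ee k) =
      aJ F J I k x * fderiv ℝ (fun y => u y I) x (ee k) +
        fderiv ℝ (aJ F J I k) x (ee k) * u x I := fun k =>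
    fd_mul _ _ (aJ_smooth F hF J I k) hI x (ee k)
  simp only [h1]
  unfold bJ
  rw [Finset.sum_add_distrib, add_mul, Finset.sum_mul]
  ring

/-! ### integration by parts -/

private theorem cc_cont {f : E n → ℝ} {ψ : E n → ℝ} (hf : Continuous f) (hψ : Continuous ψ)
    (hc : HasCompactSupport ψ) : Integrable (fun x => f x * ψ x) :=
  (hf.mul hψ).integrable_of_hasCompactSupport hc.mul_left

private theorem ibp (w ψ : E n → ℝ) (hw : ContDiff ℝ ∞ w) (hψ : Cc ψ) (v : E n) :
    ∫ x, w x * fderiv ℝ ψ x v = -∫ x, fderiv ℝ w x v * ψ x := by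
  have h1 : HasCompactSupport (fun x => fderiv ℝ ψ x v) := by
    have h2 : HasCompactSupport (fderiv ℝ ψ) := hψ.2.fderiv ℝ
    exact h2.comp_left (g := fun L : E n →L[ℝ] ℝ => L v) rfl
  exact integral_mul_fderiv_eq_neg_fderiv_mul_of_integrable (μ := (volume : Measure (E n)))
    (f := w) (g := ψ) (v := v)
    (cc_cont (fd_smooth w hw v).continuous hψ.1.continuous hψ.2)
    (cc_cont hw.continuous (fd_smooth ψ hψ.1 v).continuous h1)
    (cc_cont hw.continuous hψ.1.continuous hψ.2)
    (fun y _ => hw.differentiable (by simp) y) (fun y _ => hψ.1.differentiable (by simp) y)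

/-- the coefficient functions of the weak form -/
private def AJ (F : Fin n → E n → E n) (G : E n → Fin n → Fin n → Fin n → ℝ)
    (J : Fin (j + 1) → Fin n) (ψ : E n → ℝ) (I : Fin j → Fin n) (x : E n) : ℝ :=
  (∑ k, aJ F J I k x * fderiv ℝ ψ x (ee k)) + bJ F G J I x * ψ x

private theorem AJ_cont (F : Fin n → E n → E n) (hF : ∀ a, ContDiff ℝ ∞ (F a))
    (G : E n → Fin n → Fin n → Fin n → ℝ)
    (hG : ∀ a b c, ContDiff ℝ ∞ (fun x => G x a b c))
    (J : Fin (j + 1) → Fin n) (ψ : E n → ℝ) (hψ : Cc ψ) (I : Fin j → Fin n) :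
    Continuous (AJ F G J ψ I) ∧ HasCompactSupport (AJ F G J ψ I) := by
  constructor
  · unfold AJ
    apply Continuous.add
    · apply continuous_finset_sum
      intro k _
      exact (aJ_smooth F hF J I k).continuous.mul (fd_smooth ψ hψ.1 _).continuous
    · exact (bJ_smooth F hF G hG J I).continuous.mul hψ.1.continuous
  · refine HasCompactSupport.of_support_subset_isCompact hψ.2 ?_
    intro x hx
    by_contra hcon
    apply hx
    have h1 : ψ x = 0 := image_eq_zero_of_notMem_tsupport hcon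
    have h2 : fderiv ℝ ψ x = 0 := by
      have := support_fderiv_subset ℝ (f := ψ)
      by_contra hne
      exact hcon (this hne)
    unfold AJ
    rw [h1, h2]
    simp

private theorem weak_smooth (F : Fin n → E n → E n) (hF : ∀ a, ContDiff ℝ ∞ (F a))
    (G : E n → Fin n → Fin n → Fin n → ℝ)
    (hG : ∀ a b c, ContDiff ℝ ∞ (fun x => G x a b c))
    (J : Fin (j + 1) → Fin n) (ψ : E n → ℝ) (hψ : Cc ψ)
    (u : E n → Tn n j) (hu : ContDiff ℝ ∞ u) :
    ∑ I, ∫ x, u x I * AJ F G J ψ I x = ∫ x, dF F G u x J * ψ x := by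
  have hI : ∀ I, ContDiff ℝ ∞ (fun y => u y I) := fun I => (contDiff_pi.1 hu) I
  have hcomp : ∀ v : E n, HasCompactSupport (fun x => fderiv ℝ ψ x v) := by
    intro v
    have h2 : HasCompactSupport (fderiv ℝ ψ) := hψ.2.fderiv ℝ
    exact h2.comp_left (g := fun L : E n →L[ℝ] ℝ => L v) rfl
  have hau : ∀ I k, ContDiff ℝ ∞ (fun z => aJ F J I k z * u z I) := fun I k =>
    (aJ_smooth F hF J I k).mul (hI I)
  have h1 : ∀ I, ∫ x, u x I * AJ F G J ψ I x =
      ∫ x, (bJ F G J I x * u x I -
        ∑ k, fderiv ℝ (fun z => aJ F J I k z * u z I) x (ee k)) * ψ x := by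
    intro I
    have e1 : (fun x => u x I * AJ F G J ψ I x) = fun x =>
        (∑ k, (aJ F J I k x * u x I) * fderiv ℝ ψ x (ee k)) + (bJ F G J I x * u x I) * ψ x := by
      funext x
      unfold AJ
      rw [mul_add, Finset.mul_sum]
      congr 1
      · exact Finset.sum_congr rfl fun k _ => by ring
      · ring
    have i1 : ∀ k, Integrable (fun x => (aJ F J I k x * u x I) * fderiv ℝ ψ x (ee k)) :=
      fun k => cc_cont (hau I k).continuous (fd_smooth ψ hψ.1 _).continuous (hcomp _)
    have i2 : Integrable (fun x => (bJ F G J I x * u x I) * ψ x) :=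
      cc_cont ((bJ_smooth F hF G hG J I).continuous.mul (hI I).continuous) hψ.1.continuous hψ.2
    have i3 : ∀ k, Integrable (fun x =>
        fderiv ℝ (fun z => aJ F J I k z * u z I) x (ee k) * ψ x) :=
      fun k => cc_cont (fd_smooth _ (hau I k) _).continuous hψ.1.continuous hψ.2
    rw [e1, integral_add (integrable_finset_sum _ fun k _ => i1 k) i2,
      integral_finset_sum _ (fun k _ => i1 k)]
    have e2 : ∀ k, ∫ x, (aJ F J I k x * u x I) * fderiv ℝ ψ x (ee k) =
        -∫ x, fderiv ℝ (fun z => aJ F J I k z * u z I) x (ee k) * ψ x := fun k =>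
      ibp _ ψ (hau I k) hψ (ee k)
    simp only [e2]
    have e3 : (fun x => (bJ F G J I x * u x I -
        ∑ k, fderiv ℝ (fun z => aJ F J I k z * u z I) x (ee k)) * ψ x) = fun x =>
        (bJ F G J I x * u x I) * ψ x -
          ∑ k, fderiv ℝ (fun z => aJ F J I k z * u z I) x (ee k) * ψ x := by
      funext x
      rw [sub_mul, Finset.sum_mul]
    rw [e3, integral_sub i2 (integrable_finset_sum _ fun k _ => i3 k),
      integral_finset_sum _ (fun k _ => i3 k), Finset.sum_neg_distrib]
    ring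
  simp only [h1]
  rw [← integral_finset_sum]
  · congr 1
    funext x
    rw [dF_div F G hF u hu x J, Finset.sum_mul]
  · intro I _
    apply cc_cont _ hψ.1.continuous hψ.2
    apply Continuous.sub
    · exact (bJ_smooth F hF G hG J I).continuous.mul (hI I).continuous
    · apply continuous_finset_sum
      intro k _
      exact (fd_smooth _ (hau I k) _).continuous

/-! ### square integrable functions -/

private theorem L2l_int (u : E n → ℝ) (hu : L2l u) (K : Set (E n)) (hK : IsCompact K) :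
    IntegrableOn u K := by
  have h1 : IntegrableOn (fun x => (1 : ℝ) + u x ^ 2) K :=
    (integrableOn_const hK.measure_lt_top.ne).add (hu.2 K hK)
  refine Integrable.mono' h1 hu.1.restrict ?_
  refine Eventually.of_forall fun x => ?_
  rw [Real.norm_eq_abs]
  have := sq_abs (u x)
  nlinarith [sq_nonneg (|u x| - 1), abs_nonneg (u x)]

private theorem L2l_sub (u v : E n → ℝ) (hu : L2l u) (hv : L2l v) : L2l (fun x => u x - v x) := by
  refine ⟨hu.1.sub hv.1, fun K hK => ?_⟩
  have h1 : IntegrableOn (fun x => 2 * u x ^ 2 + 2 * v x ^ 2) K :=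
    ((hu.2 K hK).const_mul 2).add ((hv.2 K hK).const_mul 2)
  refine Integrable.mono' h1 ((hu.1.sub hv.1).pow 2).restrict ?_
  refine Eventually.of_forall fun x => ?_
  rw [Real.norm_eq_abs, abs_of_nonneg (sq_nonneg _)]
  nlinarith [sq_nonneg (u x + v x)]

private theorem L2l_cont (u : E n → ℝ) (hu : Continuous u) : L2l u :=
  ⟨hu.aestronglyMeasurable, fun _ hK => (hu.pow 2).continuousOn.integrableOn_compact hK⟩

private theorem int_mul (u : E n → ℝ) (hu : L2l u) (A : E n → ℝ) (hA : Continuous A)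
    (hAc : HasCompactSupport A) : Integrable (fun x => u x * A x) := by
  have h1 : IntegrableOn (fun x => u x * A x) (tsupport A) :=
    (L2l_int u hu _ hAc).mul_continuousOn hA.continuousOn hAc
  rwa [integrableOn_iff_integrable_of_support_subset] at h1
  intro x hx
  apply subset_tsupport
  intro h0
  apply hx
  show u x * A x = 0
  rw [h0, mul_zero]

private theorem int_bound (u : E n → ℝ) (hu : L2l u) (A : E n → ℝ) (K : Set (E n))
    (hK : IsCompact K) (hAK : ∀ x, x ∉ K → A x = 0) (M δ : ℝ)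
    (hM : ∀ x, |A x| ≤ M) (hM0 : 0 ≤ M) (hδ : 0 < δ) :
    |∫ x, u x * A x| ≤ M * (δ * volume.real K + (1 / δ) * ∫ x in K, u x ^ 2) := by
  have h1 : ∫ x, u x * A x = ∫ x in K, u x * A x := by
    rw [setIntegral_eq_integral_of_forall_compl_eq_zero]
    intro x hx
    rw [hAK x hx, mul_zero]
  have i1 : IntegrableOn (fun _ : E n => δ) K := integrableOn_const hK.measure_lt_top.ne
  have i2 : IntegrableOn (fun x => (1 / δ) * u x ^ 2) K := (hu.2 K hK).const_mul _
  have h2 : ‖∫ x in K, u x * A x‖ ≤ ∫ x in K, M * (δ + (1 / δ) * u x ^ 2) := by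
    refine norm_integral_le_of_norm_le ((i1.add i2).const_mul M) (Eventually.of_forall fun x => ?_)
    rw [norm_mul, Real.norm_eq_abs, Real.norm_eq_abs, mul_comm]
    refine mul_le_mul (hM x) ?_ (abs_nonneg _) hM0
    have h3 := sq_abs (u x)
    rw [← h3]
    set a := |u x| with ha
    have ha0 : 0 ≤ a := abs_nonneg _
    have h4 : δ + 1 / δ * a ^ 2 - a = (δ ^ 2 + a ^ 2 - a * δ) / δ := by
      field_simp
    have h5 : 0 ≤ (δ ^ 2 + a ^ 2 - a * δ) / δ := by
      apply div_nonneg _ hδ.le
      nlinarith [sq_nonneg (a - δ)]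
    linarith
  rw [h1, ← Real.norm_eq_abs]
  refine h2.trans (le_of_eq ?_)
  rw [integral_const_mul, integral_add i1 i2, integral_const_mul, setIntegral_const, smul_eq_mul,
    mul_comm δ]

/-! ### the weak equation -/

private theorem weak_eta (F : Fin n → E n → E n) (hF : ∀ a, ContDiff ℝ ∞ (F a))
    (G : E n → Fin n → Fin n → Fin n → ℝ)
    (hG : ∀ a b c, ContDiff ℝ ∞ (fun x => G x a b c))
    (η : E n → Tn n j) (P : E n → Tn n (j + 1)) (hη : L2t η)
    (happ : ∀ K, IsCompact K → ∀ κ > 0, ∃ u : E n → Tn n j, ContDiff ℝ ∞ u ∧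
      (∀ x, dF F G u x = P x) ∧ ∫ x in K, q2 (u x - η x) ≤ κ)
    (J : Fin (j + 1) → Fin n) (ψ : E n → ℝ) (hψ : Cc ψ) :
    ∑ I, ∫ x, η x I * AJ F G J ψ I x = ∫ x, P x J * ψ x := by
  have hA := fun I => AJ_cont F hF G hG J ψ hψ I
  -- a common compact set and a common bound
  obtain ⟨M, hM0, hM⟩ : ∃ M : ℝ, 0 ≤ M ∧ ∀ I x, |AJ F G J ψ I x| ≤ M := by
    have h1 : ∀ I, ∃ C : ℝ, ∀ x, ‖AJ F G J ψ I x‖ ≤ C := fun I =>
      (hA I).2.exists_bound_of_continuous (hA I).1
    choose C hC using h1
    refine ⟨∑ I, |C I|, Finset.sum_nonneg fun I _ => abs_nonneg _, fun I x => ?_⟩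
    rw [← Real.norm_eq_abs]
    exact (hC I x).trans ((le_abs_self _).trans
      (Finset.single_le_sum (f := fun I => |C I|) (fun I _ => abs_nonneg _) (Finset.mem_univ I)))
  set K : Set (E n) := ⋃ I, tsupport (AJ F G J ψ I) with hKdef
  have hK : IsCompact K := isCompact_iUnion fun I => (hA I).2
  have hAK : ∀ I x, x ∉ K → AJ F G J ψ I x = 0 := by
    intro I x hx
    apply image_eq_zero_of_notMem_tsupport
    intro hcon
    exact hx (Set.mem_iUnion.2 ⟨I, hcon⟩)
  set V : ℝ := volume.real K with hV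
  have hV0 : 0 ≤ V := measureReal_nonneg
  set N : ℝ := (Fintype.card (Fin j → Fin n) : ℝ) with hN
  have hN0 : 0 ≤ N := Nat.cast_nonneg _
  set fj : ℝ := (j.factorial : ℝ) with hfj
  have hfj0 : 0 < fj := by
    rw [hfj]
    exact_mod_cast Nat.factorial_pos j
  have hclose : ∀ δ κ : ℝ, 0 < δ → 0 < κ →
      |∑ I, (∫ x, η x I * AJ F G J ψ I x) - ∫ x, P x J * ψ x| ≤
        M * (δ * V * N + (1 / δ) * (fj * κ)) := by
    intro δ κ hδ hκ
    obtain ⟨u, hu, huP, hui⟩ := happ K hK κ hκ
    have huI : ∀ I, L2l (fun x => u x I) := fun I =>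
      L2l_cont _ ((contDiff_pi.1 hu) I).continuous
    have e1 : ∫ x, P x J * ψ x = ∑ I, ∫ x, u x I * AJ F G J ψ I x := by
      rw [weak_smooth F hF G hG J ψ hψ u hu]
      congr 1
      funext x
      rw [huP]
    rw [e1, ← Finset.sum_sub_distrib]
    have e2 : ∀ I, (∫ x, η x I * AJ F G J ψ I x) - ∫ x, u x I * AJ F G J ψ I x =
        ∫ x, (η x I - u x I) * AJ F G J ψ I x := by
      intro I
      rw [← integral_sub (int_mul _ (hη I) _ (hA I).1 (hA I).2)
        (int_mul _ (huI I) _ (hA I).1 (hA I).2)]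
      congr 1
      funext x
      ring
    simp only [e2]
    have hd : ∀ I, L2l (fun x => η x I - u x I) := fun I => L2l_sub _ _ (hη I) (huI I)
    have e3 : ∑ I, ∫ x in K, (η x I - u x I) ^ 2 = fj * ∫ x in K, q2 (u x - η x) := by
      rw [← integral_finset_sum _ (fun I _ => (hd I).2 K hK), ← integral_const_mul]
      congr 1
      funext x
      unfold q2 ipt
      rw [← hfj, mul_div_cancel₀ _ hfj0.ne']
      refine Finset.sum_congr rfl fun I _ => ?_
      rw [Pi.sub_apply]
      ring
    calc |∑ I, ∫ x, (η x I - u x I) * AJ F G J ψ I x|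
        ≤ ∑ I, |∫ x, (η x I - u x I) * AJ F G J ψ I x| := Finset.abs_sum_le_sum_abs _ _
      _ ≤ ∑ I, M * (δ * V + (1 / δ) * ∫ x in K, (η x I - u x I) ^ 2) :=
          Finset.sum_le_sum fun I _ => int_bound _ (hd I) _ K hK (hAK I) M δ (hM I) hM0 hδ
      _ = M * (δ * V * N + (1 / δ) * (fj * ∫ x in K, q2 (u x - η x))) := by
          rw [← Finset.mul_sum, Finset.sum_add_distrib, ← e3, ← Finset.mul_sum (f := fun I =>
            ∫ x in K, (η x I - u x I) ^ 2), Finset.sum_const,
            Finset.card_univ, nsmul_eq_mul, ← hN]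
          ring
      _ ≤ M * (δ * V * N + (1 / δ) * (fj * κ)) := by
          apply mul_le_mul_of_nonneg_left _ hM0
          have h5 := mul_le_mul_of_nonneg_left hui hfj0.le
          have h6 := mul_le_mul_of_nonneg_left h5 (by positivity : (0 : ℝ) ≤ 1 / δ)
          linarith
  have hzero : |∑ I, (∫ x, η x I * AJ F G J ψ I x) - ∫ x, P x J * ψ x| ≤ 0 := by
    apply le_of_forall_pos_le_add
    intro e he
    rw [zero_add]
    set δ : ℝ := e / (2 * (M * (V * N) + 1)) with hδ
    have hp1 : 0 < 2 * (M * (V * N) + 1) := by positivity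
    have hδ0 : 0 < δ := by positivity
    set κ : ℝ := e * δ / (2 * (M * fj + 1)) with hκ
    have hp2 : 0 < 2 * (M * fj + 1) := by positivity
    have hκ0 : 0 < κ := by positivity
    refine (hclose δ κ hδ0 hκ0).trans ?_
    have e1 : M * (δ * V * N + (1 / δ) * (fj * κ)) = M * (V * N) * δ + M * fj * (κ / δ) := by
      field_simp
    rw [e1]
    have e2 : M * (V * N) * δ ≤ e / 2 := by
      have h1 : M * (V * N) * δ = (e / 2) * ((M * (V * N)) / (M * (V * N) + 1)) := by
        rw [hδ]
        field_simp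
      rw [h1]
      have h2 : (M * (V * N)) / (M * (V * N) + 1) ≤ 1 := by
        rw [div_le_one (by positivity)]
        linarith
      nlinarith
    have e3 : M * fj * (κ / δ) ≤ e / 2 := by
      have h1 : M * fj * (κ / δ) = (e / 2) * ((M * fj) / (M * fj + 1)) := by
        rw [hκ]
        field_simp
      rw [h1]
      have h2 : (M * fj) / (M * fj + 1) ≤ 1 := by
        rw [div_le_one (by positivity)]
        linarith
      nlinarith
    linarith
  have := abs_nonpos_iff.mp hzero
  linarith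

theorem hFrd (hMos : StMos) (hNrm : TNrm) (hFrg : TFrg) : TFrd := by
  intro n j g Γ F G hFr ρ hρ η P hP hη happ K hK
  have hF := hFr.smF
  have hG := hFr.smG
  -- one component
  have hcomp : ∀ J : Fin (j + 1) → Fin n, Tendsto (fun ε : ℝ => ∫ x in K,
      (dF F G (mt ρ ε η) x J - P x J) ^ 2) (𝓝[>] 0) (𝓝 0) := by
    intro J
    have hPJ : Continuous (fun x => P x J) := (continuous_pi_iff.1 hP) J
    have key := hFrg n (Fin j → Fin n) ρ hρ (fun I k => aJ F J I k) (fun I => bJ F G J I)
      (fun I k => aJ_smooth F hF J I k) (fun I => bJ_smooth F hF G hG J I)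
      (fun I x => η x I) (fun x => P x J) hη hPJ ?_ K hK
    · refine key.congr' ?_
      filter_upwards [self_mem_nhdsWithin] with ε hε
      have hε0 : 0 < ε := hε
      have hsm : ContDiff ℝ ∞ (mt ρ ε η) := by
        apply contDiff_pi.2
        intro I
        exact (hMos n ρ hρ _ (hη I) ε hε0).1
      congr 1
      funext x
      rw [dF_div F G hF (mt ρ ε η) hsm x J]
      rfl
    · intro ψ hψ
      have h1 := weak_eta F hF G hG η P hη happ J ψ hψ
      rw [← h1, ← integral_finset_sum]
      · rfl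
      · intro I _
        have hA := AJ_cont F hF G hG J ψ hψ I
        exact int_mul _ (hη I) _ hA.1 hA.2
  -- sum
  have hsum : Tendsto (fun ε : ℝ => (∑ J : Fin (j + 1) → Fin n, ∫ x in K,
      (dF F G (mt ρ ε η) x J - P x J) ^ 2) / ((j + 1).factorial : ℝ)) (𝓝[>] 0) (𝓝 0) := by
    have h1 := tendsto_finset_sum (Finset.univ : Finset (Fin (j + 1) → Fin n))
      (fun J _ => hcomp J)
    have h2 := h1.div_const ((j + 1).factorial : ℝ)
    simpa using h2
  refine hsum.congr' ?_
  filter_upwards [self_mem_nhdsWithin] with ε hε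
  have hε0 : 0 < ε := hε
  have hsm : ContDiff ℝ ∞ (mt ρ ε η) := by
    apply contDiff_pi.2
    intro I
    exact (hMos n ρ hρ _ (hη I) ε hε0).1
  have hcont : ∀ J : Fin (j + 1) → Fin n, Continuous (fun x => dF F G (mt ρ ε η) x J) := by
    intro J
    have h1 : (fun x => dF F G (mt ρ ε η) x J) = fun x =>
        ∑ I, (bJ F G J I x * mt ρ ε η x I -
          ∑ k, fderiv ℝ (fun z => aJ F J I k z * mt ρ ε η z I) x (ee k)) := by
      funext x
      exact dF_div F G hF _ hsm x J
    rw [h1]
    have hI : ∀ I, ContDiff ℝ ∞ (fun y => mt ρ ε η y I) := fun I => (contDiff_pi.1 hsm) I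
    apply continuous_finset_sum
    intro I _
    apply Continuous.sub
    · exact (bJ_smooth F hF G hG J I).continuous.mul (hI I).continuous
    · apply continuous_finset_sum
      intro k _
      exact (fd_smooth _ ((aJ_smooth F hF J I k).mul (hI I)) _).continuous
  rw [← integral_finset_sum, ← integral_div]
  · congr 1
    funext x
    unfold q2 ipt
    congr 1
    refine Finset.sum_congr rfl fun J _ => ?_
    rw [Pi.sub_apply]
    ring
  · intro J _
    exact (((hcont J).sub ((continuous_pi_iff.1 hP) J)).pow 2).continuousOn.integrableOn_compact hK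

end Pool.Agent.Helper15.DSH
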